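import Pool.Agent.helper20.VVO.Spec

/-!
# MP_069684_lc, project vvo, row HCD
-/

set_option autoImplicit false

open Filter Topology

namespace Pool.Agent.VVO

open Pool.Agent.PB Pool.Agent.ISO Pool.Agent.ISA

theorem HCD_ind (P : Prop) : 0 ≤ ind P ∧ ind P ≤ 1 := by
  unfold ind
  by_cases h : P
  · rw [if_pos h]
    exact ⟨zero_le_one, le_rfl⟩
  · rw [if_neg h]
    exact ⟨le_rfl, zero_le_one⟩

open Classical in
/-- extension by zero of a weight on the promise -/
noncomputable def HCD_ext {α : Type} (yes no : α → Prop) (μ : {a : α // yes a ∨ no a} → ℝ) (A : α → Prop) (c : ℝ) (a : α) : ℝ :=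
  if h : yes a ∨ no a then (if A a then μ ⟨a, h⟩ / c else 0) else 0

open Classical in
theorem HCD_sum {α : Type} [Fintype α] (yes no : α → Prop) (μ : {a : α // yes a ∨ no a} → ℝ) (A : α → Prop) (c : ℝ) (φ : α → ℝ) :
    ∑ a, HCD_ext yes no μ A c a * φ a = (∑ a : {a : α // yes a ∨ no a}, (if A a.1 then μ a * φ a.1 else 0)) / c := by
  have h1 : ∑ a, HCD_ext yes no μ A c a * φ a = ∑ a ∈ Finset.univ.filter (fun a => yes a ∨ no a), HCD_ext yes no μ A c a * φ a := by
    rw [Finset.sum_filter]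
    apply Finset.sum_congr rfl
    intro a _
    by_cases h : yes a ∨ no a
    · rw [if_pos h]
    · rw [if_neg h]
      unfold HCD_ext
      rw [dif_neg h, zero_mul]
  rw [h1, Finset.sum_div]
  rw [Finset.sum_subtype (p := fun a => yes a ∨ no a) (Finset.univ.filter (fun a => yes a ∨ no a)) (fun a => by simp)]
  apply Finset.sum_congr rfl
  intro a _
  unfold HCD_ext
  rw [dif_pos a.2]
  by_cases h : A a.1
  · rw [if_pos h, if_pos h]
    ring
  · rw [if_neg h, if_neg h, zero_mul, zero_div]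

open Classical in
theorem HCD_play {α : Type} [Fintype α] (yes no : α → Prop) (𝒞 : Set (α → Bool)) (γ : ℝ)
    (hd : ∀ a, ¬ (yes a ∧ no a)) (hc : ∀ b : Bool, (fun _ => b) ∈ 𝒞) (hγ : 0 < γ) (hγ4 : γ ≤ 1 / 4)
    (hno : ¬ ∃ Dy Dn : α → ℝ, (∀ a, 0 ≤ Dy a) ∧ ∑ a, Dy a = 1 ∧ (∀ a, Dy a ≠ 0 → yes a) ∧
      (∀ a, 0 ≤ Dn a) ∧ ∑ a, Dn a = 1 ∧ (∀ a, Dn a ≠ 0 → no a) ∧
      ∀ C ∈ 𝒞, ∑ a, Dn a * ind (C a = true) ≤ ∑ a, Dy a * ind (C a = true) + 4 * γ)
    (μ : {a : α // yes a ∨ no a} → ℝ) (hμ : ∀ a, 0 ≤ μ a) (hμ1 : ∑ a, μ a = 1) :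
    ∃ C : 𝒞, 1 / 2 + γ ≤ ∑ a with ((no a.1 ∧ C.1 a.1 = true) ∨ (yes a.1 ∧ C.1 a.1 = false)), μ a := by
  obtain ⟨Mn, hMn⟩ : ∃ Mn : ℝ, Mn = ∑ a : {a : α // yes a ∨ no a}, (if no a.1 then μ a else 0) := ⟨_, rfl⟩
  obtain ⟨My, hMy⟩ : ∃ My : ℝ, My = ∑ a : {a : α // yes a ∨ no a}, (if yes a.1 then μ a else 0) := ⟨_, rfl⟩
  have hM : Mn + My = 1 := by
    rw [hMn, hMy, ← Finset.sum_add_distrib, ← hμ1]
    apply Finset.sum_congr rfl
    intro a _
    rcases a.2 with h | h
    · have h2 : ¬ no a.1 := fun h3 => hd a.1 ⟨h, h3⟩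
      rw [if_neg h2, if_pos h, zero_add]
    · have h2 : ¬ yes a.1 := fun h3 => hd a.1 ⟨h3, h⟩
      rw [if_pos h, if_neg h2, add_zero]
  have hite : ∀ (a : {a : α // yes a ∨ no a}) (P : Prop) [Decidable P], 0 ≤ (if P then μ a else 0) := by
    intro a P _
    by_cases hP : P
    · rw [if_pos hP]
      exact hμ a
    · rw [if_neg hP]
  by_cases h1 : 1 / 2 + γ ≤ Mn
  · refine ⟨⟨fun _ => true, hc true⟩, h1.trans ?_⟩
    rw [hMn, Finset.sum_filter]
    apply Finset.sum_le_sum
    intro a _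
    by_cases h : no a.1
    · rw [if_pos h, if_pos (Or.inl ⟨h, rfl⟩)]
    · rw [if_neg h]
      exact hite a _
  by_cases h2 : 1 / 2 + γ ≤ My
  · refine ⟨⟨fun _ => false, hc false⟩, h2.trans ?_⟩
    rw [hMy, Finset.sum_filter]
    apply Finset.sum_le_sum
    intro a _
    by_cases h : yes a.1
    · rw [if_pos h, if_pos (Or.inr ⟨h, rfl⟩)]
    · rw [if_neg h]
      exact hite a _
  push Not at h1 h2
  have hMn0 : 0 < Mn := by linarith
  have hMy0 : 0 < My := by linarith
  -- the conditional distributions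
  have e1 : ∀ (A : α → Prop) (c : ℝ), 0 < c → ∀ a, 0 ≤ HCD_ext yes no μ A c a := by
    intro A c hc0 a
    unfold HCD_ext
    split_ifs
    · exact div_nonneg (hμ _) hc0.le
    · exact le_rfl
    · exact le_rfl
  have e2 : ∀ (A : α → Prop) (c : ℝ) a, HCD_ext yes no μ A c a ≠ 0 → A a := by
    intro A c a h
    by_contra h3
    apply h
    unfold HCD_ext
    split_ifs
    · rfl
    · rfl
  have e3 : ∀ (A : α → Prop) (c : ℝ), ∑ a, HCD_ext yes no μ A c a =
      (∑ a : {a : α // yes a ∨ no a}, (if A a.1 then μ a else 0)) / c := by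
    intro A c
    have := HCD_sum yes no μ A c (fun _ => 1)
    simp only [mul_one] at this
    exact this
  have e4 : ∃ C ∈ 𝒞, ∑ a, HCD_ext yes no μ yes My a * ind (C a = true) + 4 * γ < ∑ a, HCD_ext yes no μ no Mn a * ind (C a = true) := by
    by_contra h3
    push Not at h3
    apply hno
    refine ⟨HCD_ext yes no μ yes My, HCD_ext yes no μ no Mn, e1 _ _ hMy0, ?_, e2 _ _, e1 _ _ hMn0, ?_, e2 _ _, h3⟩
    · rw [e3, ← hMy, div_self hMy0.ne']
    · rw [e3, ← hMn, div_self hMn0.ne']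
  obtain ⟨C, hC, h3⟩ := e4
  obtain ⟨Py, hPy⟩ : ∃ Py : ℝ, Py = ∑ a, HCD_ext yes no μ yes My a * ind (C a = true) := ⟨_, rfl⟩
  obtain ⟨Pn, hPn⟩ : ∃ Pn : ℝ, Pn = ∑ a, HCD_ext yes no μ no Mn a * ind (C a = true) := ⟨_, rfl⟩
  rw [← hPy, ← hPn] at h3
  have b1 : 0 ≤ Py := by
    rw [hPy]
    exact Finset.sum_nonneg fun a _ => mul_nonneg (e1 _ _ hMy0 a) (HCD_ind _).1
  have b2 : Pn ≤ 1 := by
    have h4 : ∑ a, HCD_ext yes no μ no Mn a = 1 := by
      rw [e3, ← hMn, div_self hMn0.ne']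
    rw [← h4, hPn]
    apply Finset.sum_le_sum
    intro a _
    calc HCD_ext yes no μ no Mn a * ind (C a = true) ≤ HCD_ext yes no μ no Mn a * 1 :=
        mul_le_mul_of_nonneg_left (HCD_ind _).2 (e1 _ _ hMn0 a)
      _ = _ := mul_one _
  have b3 : Mn * Pn = ∑ a : {a : α // yes a ∨ no a}, (if no a.1 then μ a * ind (C a.1 = true) else 0) := by
    rw [hPn, HCD_sum yes no μ no Mn (fun a => ind (C a = true)), mul_div_cancel₀ _ hMn0.ne']
  have b4 : My * Py = ∑ a : {a : α // yes a ∨ no a}, (if yes a.1 then μ a * ind (C a.1 = true) else 0) := by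
    rw [hPy, HCD_sum yes no μ yes My (fun a => ind (C a = true)), mul_div_cancel₀ _ hMy0.ne']
  have b5 : ∑ a with ((no a.1 ∧ C a.1 = true) ∨ (yes a.1 ∧ C a.1 = false)), μ a = Mn * Pn + (My - My * Py) := by
    rw [b3, b4]
    have h5 : ∀ a : {a : α // yes a ∨ no a}, (if ((no a.1 ∧ C a.1 = true) ∨ (yes a.1 ∧ C a.1 = false)) then μ a else 0) =
        (if no a.1 then μ a * ind (C a.1 = true) else 0) + ((if yes a.1 then μ a else 0) - (if yes a.1 then μ a * ind (C a.1 = true) else 0)) := by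
      intro a
      rcases a.2 with h | h
      · have h6 : ¬ no a.1 := fun h7 => hd a.1 ⟨h, h7⟩
        rw [if_neg h6, if_pos h, if_pos h]
        by_cases h8 : C a.1 = true
        · have h9 : ¬ ((no a.1 ∧ C a.1 = true) ∨ (yes a.1 ∧ C a.1 = false)) := by
            rintro (h | h)
            · exact h6 h.1
            · rw [h8] at h
              exact absurd h.2 (by decide)
          rw [if_neg h9]
          unfold ind
          rw [if_pos h8]
          ring
        · have h9 : C a.1 = false := by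
            rcases hCa : C a.1 with _ | _
            · rfl
            · exact absurd hCa h8
          rw [if_pos (Or.inr ⟨h, h9⟩)]
          unfold ind
          rw [if_neg h8]
          ring
      · have h6 : ¬ yes a.1 := fun h7 => hd a.1 ⟨h7, h⟩
        rw [if_pos h, if_neg h6, if_neg h6]
        by_cases h8 : C a.1 = true
        · rw [if_pos (Or.inl ⟨h, h8⟩)]
          unfold ind
          rw [if_pos h8]
          ring
        · have h9 : ¬ ((no a.1 ∧ C a.1 = true) ∨ (yes a.1 ∧ C a.1 = false)) := by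
            rintro (h | h)
            · exact h8 h.2
            · exact h6 h.1
          rw [if_neg h9]
          unfold ind
          rw [if_neg h8]
          ring
    rw [Finset.sum_filter, Finset.sum_congr rfl fun a _ => h5 a, Finset.sum_add_distrib, Finset.sum_sub_distrib, ← hMy]
  refine ⟨⟨C, hC⟩, ?_⟩
  show 1 / 2 + γ ≤ ∑ a with ((no a.1 ∧ C a.1 = true) ∨ (yes a.1 ∧ C a.1 = false)), μ a
  rw [b5]
  have h5 : Mn = 1 - My := by linarith
  have h6 : 4 * γ < Pn - Py := by linarith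
  -- with `My = 1/2 - δ`
  have h7 : Mn * Pn + (My - My * Py) = (1 / 2) * (1 + (Pn - Py)) + (Mn - 1 / 2) * (Pn + Py - 1) := by
    rw [h5]
    ring
  rw [h7]
  have h8 : |(Mn - 1 / 2) * (Pn + Py - 1)| ≤ γ * 1 := by
    rw [abs_mul]
    apply mul_le_mul
    · rw [abs_le]
      constructor <;> linarith
    · rw [abs_le]
      constructor <;> linarith
    · exact abs_nonneg _
    · exact hγ.le
  have h9 := (abs_le.mp h8).1
  linarith

theorem HCD (hPTL : ISO.PTL_stmt) : HCD_stmt := by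
  classical
  intro α _ yes no 𝒞 γ K hd hc hγ hγ4 hK
  by_cases hno : ∃ Dy Dn : α → ℝ, (∀ a, 0 ≤ Dy a) ∧ ∑ a, Dy a = 1 ∧ (∀ a, Dy a ≠ 0 → yes a) ∧
      (∀ a, 0 ≤ Dn a) ∧ ∑ a, Dn a = 1 ∧ (∀ a, Dn a ≠ 0 → no a) ∧
      ∀ C ∈ 𝒞, ∑ a, Dn a * ind (C a = true) ≤ ∑ a, Dy a * ind (C a = true) + 4 * γ
  · exact Or.inr hno
  left
  by_cases hU : Nonempty {a : α // yes a ∨ no a}
  · obtain ⟨L, hL⟩ := hPTL {a : α // yes a ∨ no a} 𝒞
      (fun C a => (no a.1 ∧ C.1 a.1 = true) ∨ (yes a.1 ∧ C.1 a.1 = false)) (1 / 2 + γ) γ K hγ (by linarith) (by linarith)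
      (fun μ h1 h2 => by
        obtain ⟨C, hC⟩ := HCD_play yes no 𝒞 γ hd hc hγ hγ4 hno μ h1 h2
        refine ⟨C, hC.trans (le_of_eq ?_)⟩
        apply Finset.sum_congr _ fun _ _ => rfl
        ext a
        simp only [Finset.mem_filter, Finset.mem_univ, true_and])
    have hbig : ∀ a : {a : α // yes a ∨ no a}, (K : ℝ) / 2 <
        ((Finset.univ.filter fun j => (no a.1 ∧ (L j).1 a.1 = true) ∨ (yes a.1 ∧ (L j).1 a.1 = false)).card : ℝ) := by
      intro a
      have h1 := hL a
      have hcard : (Fintype.card {a : α // yes a ∨ no a} : ℝ) ≤ (Fintype.card α : ℝ) := by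
        exact_mod_cast Fintype.card_subtype_le _
      have hpos : (0 : ℝ) < (Fintype.card {a : α // yes a ∨ no a} : ℝ) := by
        exact_mod_cast Fintype.card_pos
      have h2 : Real.log (Fintype.card {a : α // yes a ∨ no a}) ≤ Real.log (Fintype.card α) := Real.log_le_log hpos hcard
      have h3 : Real.log (Fintype.card {a : α // yes a ∨ no a}) / γ < γ * K / 4 := by
        rw [div_lt_iff₀ hγ]
        nlinarith
      have h4 : (K : ℝ) / 2 + γ * K / 4 ≤ (1 - γ) * (1 / 2 + γ) * K := by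
        have h5 : (0 : ℝ) ≤ K := Nat.cast_nonneg K
        have h6 : 0 ≤ (γ / 4 - γ ^ 2) * K := by
          apply mul_nonneg _ h5
          nlinarith
        nlinarith
      have h7 : (K : ℝ) / 2 < (1 - γ) * (1 / 2 + γ) * K - Real.log (Fintype.card {a : α // yes a ∨ no a}) / γ := by linarith
      refine h7.trans_le (h1.trans (le_of_eq ?_))
      congr 2
      ext j
      simp only [Finset.mem_filter, Finset.mem_univ, true_and]
    refine ⟨fun t => (L t).1, fun t => (L t).2, fun a ha => ?_, fun a ha => ?_⟩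
    · have h1 := hbig ⟨a, Or.inl ha⟩
      have h2 : (Finset.univ.filter fun j => (no a ∧ (L j).1 a = true) ∨ (yes a ∧ (L j).1 a = false)).card ≤
          (Finset.univ.filter fun j => ¬ (L j).1 a = true).card := by
        apply Finset.card_le_card
        intro j hj
        rw [Finset.mem_filter] at hj ⊢
        refine ⟨hj.1, fun h => ?_⟩
        rcases hj.2 with h3 | h3
        · exact hd a ⟨ha, h3.1⟩
        · rw [h] at h3
          exact absurd h3.2 (by decide)
      have h3 : (Finset.univ.filter fun j => (L j).1 a = true).card + (Finset.univ.filter fun j => ¬ (L j).1 a = true).card = K := by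
        have h4 := Finset.card_filter_add_card_filter_not (s := (Finset.univ : Finset (Fin K))) (fun j => (L j).1 a = true)
        rw [Finset.card_univ, Fintype.card_fin] at h4
        exact h4
      have h5 : (K : ℝ) < 2 * ((Finset.univ.filter fun j => (no a ∧ (L j).1 a = true) ∨ (yes a ∧ (L j).1 a = false)).card : ℝ) := by
        have h6 : (K : ℝ) / 2 < ((Finset.univ.filter fun j => (no a ∧ (L j).1 a = true) ∨ (yes a ∧ (L j).1 a = false)).card : ℝ) := h1
        linarith
      have h6 : K < 2 * (Finset.univ.filter fun j => (no a ∧ (L j).1 a = true) ∨ (yes a ∧ (L j).1 a = false)).card := by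
        exact_mod_cast h5
      show 2 * (Finset.univ.filter fun j => (L j).1 a = true).card < K
      omega
    · have h1 := hbig ⟨a, Or.inr ha⟩
      have h2 : (Finset.univ.filter fun j => (no a ∧ (L j).1 a = true) ∨ (yes a ∧ (L j).1 a = false)).card ≤
          (Finset.univ.filter fun j => (L j).1 a = true).card := by
        apply Finset.card_le_card
        intro j hj
        rw [Finset.mem_filter] at hj ⊢
        refine ⟨hj.1, ?_⟩
        rcases hj.2 with h3 | h3
        · exact h3.2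
        · exact absurd ⟨h3.1, ha⟩ (hd a)
      have h5 : (K : ℝ) < 2 * ((Finset.univ.filter fun j => (no a ∧ (L j).1 a = true) ∨ (yes a ∧ (L j).1 a = false)).card : ℝ) := by
        have h6 : (K : ℝ) / 2 < ((Finset.univ.filter fun j => (no a ∧ (L j).1 a = true) ∨ (yes a ∧ (L j).1 a = false)).card : ℝ) := h1
        linarith
      have h6 : K < 2 * (Finset.univ.filter fun j => (no a ∧ (L j).1 a = true) ∨ (yes a ∧ (L j).1 a = false)).card := by
        exact_mod_cast h5
      show K < 2 * (Finset.univ.filter fun j => (L j).1 a = true).card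
      omega
  · refine ⟨fun _ _ => false, fun _ => hc false, fun a ha => absurd ⟨⟨a, Or.inl ha⟩⟩ hU, fun a ha => absurd ⟨⟨a, Or.inr ha⟩⟩ hU⟩

end Pool.Agent.VVO
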