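import Pool.Agent.helper20.VVO.Spec

/-!
# MP_069684_lc, project vvo, row INQ
-/

set_option autoImplicit false

open Filter Topology

namespace Pool.Agent.VVO

open Pool.Agent.PB Pool.Agent.ISO Pool.Agent.ISA

theorem INQ_ind (P : Prop) : 0 ≤ ind P ∧ ind P ≤ 1 := by
  unfold ind
  by_cases h : P
  · rw [if_pos h]
    exact ⟨zero_le_one, le_rfl⟩
  · rw [if_neg h]
    exact ⟨le_rfl, zero_le_one⟩

theorem INQ_harm (j : ℕ) : ∑ a ∈ Finset.Icc 1 j, (1 / (a : ℝ)) = (harmonic j : ℝ) := by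
  rw [harmonic_eq_sum_Icc]
  push_cast
  apply Finset.sum_congr rfl
  intro a _
  rw [one_div]

theorem INQ (hPVT : PVT_stmt) (hHYB : HYB_stmt) (hAVG : AVG_stmt) : INQ_stmt := by
  intro α _ Dy Dn k l j q acc η p hl hlk hq hη hDy0 hDy1 hDn0 hDn1 hT hp
  have hH := fun S => hHYB α Dy Dn k S hDy0 hDy1 hDn0 hDn1
  have hH0 : (0 : ℝ) ≤ (harmonic j : ℝ) := by
    rw [← INQ_harm]
    apply Finset.sum_nonneg
    intro a _
    positivity
  -- the functions
  obtain ⟨g, hg⟩ : ∃ g : Fin q → ℕ → Finset (Fin k) → ℝ, g = fun t a S => ∑ X, DS Dy Dn S X * ind (a ≤ cnt l S (acc t X)) := ⟨_, rfl⟩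
  obtain ⟨G, hG⟩ : ∃ G : Fin q → Finset (Fin k) → ℝ, G = fun t S => ∑ a ∈ Finset.Icc 1 j, (1 / (a : ℝ)) * g t a S := ⟨_, rfl⟩
  obtain ⟨U, hU⟩ : ∃ U : Fin q → Finset (Fin k) → ℝ, U = fun t S => ∑ X, DS Dy Dn S X * ind (1 ≤ cnt l S (acc t X) ∧ cnt l S (acc t X) ≤ j) := ⟨_, rfl⟩
  have hg01 : ∀ t a S, 0 ≤ g t a S ∧ g t a S ≤ 1 := by
    intro t a S
    rw [hg]
    constructor
    · exact Finset.sum_nonneg fun X _ => mul_nonneg ((hH S).1 X) (INQ_ind _).1
    · calc ∑ X, DS Dy Dn S X * ind (a ≤ cnt l S (acc t X)) ≤ ∑ X, DS Dy Dn S X * 1 :=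
          Finset.sum_le_sum fun X _ => mul_le_mul_of_nonneg_left (INQ_ind _).2 ((hH S).1 X)
        _ = 1 := by
          simp only [mul_one]
          exact (hH S).2.1
  have hG01 : ∀ t S, 0 ≤ G t S ∧ G t S ≤ (harmonic j : ℝ) := by
    intro t S
    rw [hG]
    constructor
    · apply Finset.sum_nonneg
      intro a _
      exact mul_nonneg (by positivity) (hg01 t a S).1
    · rw [← INQ_harm]
      apply Finset.sum_le_sum
      intro a _
      calc (1 / (a : ℝ)) * g t a S ≤ (1 / (a : ℝ)) * 1 := mul_le_mul_of_nonneg_left (hg01 t a S).2 (by positivity)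
        _ = 1 / (a : ℝ) := mul_one _
  -- the inequality for one set
  have hmain : ∀ t (S : Finset (Fin k)), (l : ℝ) * U t S ≤ ∑ i ∈ S, (G t S - G t (S.erase i)) + S.card * ((harmonic j : ℝ) * η) := by
    intro t S
    have h1 : (l : ℝ) * U t S ≤ ∑ X, DS Dy Dn S X * ∑ a ∈ Finset.Icc 1 j, (1 / (a : ℝ)) *
        ∑ i ∈ S, (ind (a ≤ cnt l S (acc t X)) - ind (a ≤ cnt l (S.erase i) (acc t X))) := by
      rw [hU]
      show (l : ℝ) * ∑ X, DS Dy Dn S X * ind (1 ≤ cnt l S (acc t X) ∧ cnt l S (acc t X) ≤ j) ≤ _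
      rw [Finset.mul_sum]
      apply Finset.sum_le_sum
      intro X _
      calc (l : ℝ) * (DS Dy Dn S X * ind (1 ≤ cnt l S (acc t X) ∧ cnt l S (acc t X) ≤ j)) =
          DS Dy Dn S X * ((l : ℝ) * ind (1 ≤ cnt l S (acc t X) ∧ cnt l S (acc t X) ≤ j)) := by ring
        _ ≤ _ := mul_le_mul_of_nonneg_left (hPVT k l j S (acc t X)) ((hH S).1 X)
    have h2 : ∑ X, DS Dy Dn S X * ∑ a ∈ Finset.Icc 1 j, (1 / (a : ℝ)) *
        ∑ i ∈ S, (ind (a ≤ cnt l S (acc t X)) - ind (a ≤ cnt l (S.erase i) (acc t X))) =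
        ∑ a ∈ Finset.Icc 1 j, (1 / (a : ℝ)) * ∑ i ∈ S, (g t a S - ∑ X, DS Dy Dn S X * ind (a ≤ cnt l (S.erase i) (acc t X))) := by
      have h3 : ∀ X, DS Dy Dn S X * ∑ a ∈ Finset.Icc 1 j, (1 / (a : ℝ)) *
          ∑ i ∈ S, (ind (a ≤ cnt l S (acc t X)) - ind (a ≤ cnt l (S.erase i) (acc t X))) =
          ∑ a ∈ Finset.Icc 1 j, (1 / (a : ℝ)) * ∑ i ∈ S, (DS Dy Dn S X * ind (a ≤ cnt l S (acc t X)) -
            DS Dy Dn S X * ind (a ≤ cnt l (S.erase i) (acc t X))) := by
        intro X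
        rw [Finset.mul_sum]
        apply Finset.sum_congr rfl
        intro a _
        rw [← mul_assoc, mul_comm (DS Dy Dn S X), mul_assoc, Finset.mul_sum]
        congr 1
        apply Finset.sum_congr rfl
        intro i _
        rw [mul_sub]
      simp only [h3]
      rw [Finset.sum_comm]
      apply Finset.sum_congr rfl
      intro a _
      rw [← Finset.mul_sum]
      congr 1
      rw [Finset.sum_comm]
      apply Finset.sum_congr rfl
      intro i _
      rw [Finset.sum_sub_distrib, hg]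
    have h4 : ∑ a ∈ Finset.Icc 1 j, (1 / (a : ℝ)) * ∑ i ∈ S, (g t a S - ∑ X, DS Dy Dn S X * ind (a ≤ cnt l (S.erase i) (acc t X))) ≤
        ∑ a ∈ Finset.Icc 1 j, (1 / (a : ℝ)) * ∑ i ∈ S, (g t a S - g t a (S.erase i) + η) := by
      apply Finset.sum_le_sum
      intro a ha
      rw [Finset.mem_Icc] at ha
      apply mul_le_mul_of_nonneg_left _ (by positivity)
      apply Finset.sum_le_sum
      intro i hi
      have h5 := (hH S).2.2 i (fun X => ind (a ≤ cnt l (S.erase i) (acc t X))) η hi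
        (fun X => hT t S i X a hi ha.1 ha.2)
      have h6 : g t a (S.erase i) = ∑ X, DS Dy Dn (S.erase i) X * ind (a ≤ cnt l (S.erase i) (acc t X)) := by
        rw [hg]
      rw [h6]
      linarith
    have h7 : ∑ a ∈ Finset.Icc 1 j, (1 / (a : ℝ)) * ∑ i ∈ S, (g t a S - g t a (S.erase i) + η) =
        ∑ i ∈ S, (G t S - G t (S.erase i)) + S.card * ((harmonic j : ℝ) * η) := by
      have h8 : ∀ a ∈ Finset.Icc 1 j, (1 / (a : ℝ)) * ∑ i ∈ S, (g t a S - g t a (S.erase i) + η) =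
          ∑ i ∈ S, ((1 / (a : ℝ)) * g t a S - (1 / (a : ℝ)) * g t a (S.erase i)) + S.card * ((1 / (a : ℝ)) * η) := by
        intro a _
        rw [Finset.sum_add_distrib, Finset.sum_const, nsmul_eq_mul, mul_add, Finset.mul_sum]
        congr 1
        · apply Finset.sum_congr rfl
          intro i _
          rw [mul_sub]
        · ring
      rw [Finset.sum_congr rfl h8, Finset.sum_add_distrib, Finset.sum_comm]
      congr 1
      · apply Finset.sum_congr rfl
        intro i _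
        rw [Finset.sum_sub_distrib, hG]
      · rw [← Finset.mul_sum, ← Finset.sum_mul, INQ_harm]
    calc (l : ℝ) * U t S ≤ _ := h1
      _ = _ := h2
      _ ≤ _ := h4
      _ = _ := h7
  have hA : ∀ t, ∑ r ∈ Finset.Icc l k, ((l : ℝ) / r) * ((∑ S ∈ (Finset.univ : Finset (Fin k)).powersetCard r, U t S) / (k.choose r : ℝ)) ≤
      (harmonic j : ℝ) + k * ((harmonic j : ℝ) * η) := fun t =>
    hAVG k l (U t) (G t) (harmonic j : ℝ) ((harmonic j : ℝ) * η) hl hlk (mul_nonneg hH0 hη) (hG01 t) (hmain t)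
  -- lower bound
  have hlow : ∀ S : Finset (Fin k), l ≤ S.card → p * q ≤ ∑ t, U t S := by
    intro S hS
    have h1 : ∑ t, U t S = ∑ X, DS Dy Dn S X * ∑ t, ind (1 ≤ cnt l S (acc t X) ∧ cnt l S (acc t X) ≤ j) := by
      rw [hU]
      show ∑ t, ∑ X, DS Dy Dn S X * ind (1 ≤ cnt l S (acc t X) ∧ cnt l S (acc t X) ≤ j) = _
      rw [Finset.sum_comm]
      apply Finset.sum_congr rfl
      intro X _
      rw [Finset.mul_sum]
    rw [h1]
    calc p * q = ∑ X, DS Dy Dn S X * (p * q) := by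
          rw [← Finset.sum_mul, (hH S).2.1, one_mul]
      _ ≤ _ := by
          apply Finset.sum_le_sum
          intro X _
          by_cases h0 : DS Dy Dn S X = 0
          · rw [h0, zero_mul, zero_mul]
          · apply mul_le_mul_of_nonneg_left _ ((hH S).1 X)
            have h2 : ∀ i, (if i ∈ S then Dy (X i) else Dn (X i)) ≠ 0 := by
              intro i h3
              exact h0 (Finset.prod_eq_zero (Finset.mem_univ i) h3)
            refine hp S X hS (fun i hi => ?_) (fun i hi => ?_)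
            · have := h2 i
              rwa [if_pos hi] at this
            · have := h2 i
              rwa [if_neg hi] at this
  have hsum : p * q * ∑ r ∈ Finset.Icc l k, (l : ℝ) / (r : ℝ) ≤
      ∑ t : Fin q, ∑ r ∈ Finset.Icc l k, ((l : ℝ) / r) * ((∑ S ∈ (Finset.univ : Finset (Fin k)).powersetCard r, U t S) / (k.choose r : ℝ)) := by
    rw [Finset.sum_comm, Finset.mul_sum]
    apply Finset.sum_le_sum
    intro r hr
    rw [Finset.mem_Icc] at hr
    rw [← Finset.mul_sum, mul_comm]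
    apply mul_le_mul_of_nonneg_left _ (by positivity)
    rw [← Finset.sum_div, Finset.sum_comm]
    have hc : (0 : ℝ) < (k.choose r : ℝ) := by
      exact_mod_cast Nat.choose_pos hr.2
    rw [le_div_iff₀ hc]
    calc p * q * (k.choose r : ℝ) = ∑ S ∈ (Finset.univ : Finset (Fin k)).powersetCard r, p * q := by
          rw [Finset.sum_const, Finset.card_powersetCard, Finset.card_univ, Fintype.card_fin, nsmul_eq_mul, mul_comm]
      _ ≤ _ := by
          apply Finset.sum_le_sum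
          intro S hS
          rw [Finset.mem_powersetCard] at hS
          exact hlow S (by omega)
  have hup : ∑ t : Fin q, ∑ r ∈ Finset.Icc l k, ((l : ℝ) / r) * ((∑ S ∈ (Finset.univ : Finset (Fin k)).powersetCard r, U t S) / (k.choose r : ℝ)) ≤
      q * ((harmonic j : ℝ) + k * ((harmonic j : ℝ) * η)) := by
    calc _ ≤ ∑ t : Fin q, ((harmonic j : ℝ) + k * ((harmonic j : ℝ) * η)) := Finset.sum_le_sum fun t _ => hA t
      _ = _ := by
        rw [Finset.sum_const, Finset.card_univ, Fintype.card_fin, nsmul_eq_mul]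
  have hq0 : (0 : ℝ) < q := by exact_mod_cast hq
  have hfin := hsum.trans hup
  have h9 : (q : ℝ) * (p * ∑ r ∈ Finset.Icc l k, (l : ℝ) / (r : ℝ)) ≤ q * ((harmonic j : ℝ) * (1 + k * η)) := by
    calc (q : ℝ) * (p * ∑ r ∈ Finset.Icc l k, (l : ℝ) / (r : ℝ)) = p * q * ∑ r ∈ Finset.Icc l k, (l : ℝ) / (r : ℝ) := by ring
      _ ≤ q * ((harmonic j : ℝ) + k * ((harmonic j : ℝ) * η)) := hfin
      _ = q * ((harmonic j : ℝ) * (1 + k * η)) := by ring
  exact le_of_mul_le_mul_left h9 hq0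

end Pool.Agent.VVO
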