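import Pool.Agent.helper20.VVO.Spec

/-!
# MP_069684_lc, project vvo, row PVT
-/

set_option autoImplicit false

open Filter Topology

namespace Pool.Agent.VVO

open Pool.Agent.PB Pool.Agent.ISO Pool.Agent.ISA

open Classical in
theorem PVT_split {k : ℕ} (l : ℕ) (S : Finset (Fin k)) (A : Finset (Fin k) → Prop) (i : Fin k) :
    cnt l S A = cnt l (S.erase i) A + (((S.powersetCard l).filter A).filter fun P => i ∈ P).card := by
  unfold cnt
  have h1 := Finset.card_filter_add_card_filter_not (s := (S.powersetCard l).filter A) (fun P => i ∈ P)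
  rw [← h1, add_comm]
  congr 2
  ext P
  simp only [Finset.mem_filter, Finset.mem_powersetCard]
  constructor
  · rintro ⟨⟨⟨h2, h3⟩, h4⟩, h5⟩
    exact ⟨⟨Finset.subset_erase.mpr ⟨h2, h5⟩, h3⟩, h4⟩
  · rintro ⟨⟨h2, h3⟩, h4⟩
    obtain ⟨h5, h6⟩ := Finset.subset_erase.mp h2
    exact ⟨⟨⟨h5, h3⟩, h4⟩, h6⟩

open Classical in
theorem PVT_double {k : ℕ} (l : ℕ) (S : Finset (Fin k)) (A : Finset (Fin k) → Prop) :
    ∑ i ∈ S, (((S.powersetCard l).filter A).filter fun P => i ∈ P).card = cnt l S A * l := by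
  have h1 : ∀ i, (((S.powersetCard l).filter A).filter fun P => i ∈ P).card = ∑ P ∈ (S.powersetCard l).filter A, if i ∈ P then 1 else 0 := by
    intro i
    rw [Finset.card_filter]
  simp only [h1]
  rw [Finset.sum_comm]
  have h2 : ∀ P ∈ (S.powersetCard l).filter A, (∑ i ∈ S, if i ∈ P then 1 else 0) = l := by
    intro P hP
    rw [Finset.mem_filter, Finset.mem_powersetCard] at hP
    rw [← Finset.card_filter]
    have h3 : (S.filter fun i => i ∈ P) = P := by
      ext i
      rw [Finset.mem_filter]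
      exact ⟨fun h => h.2, fun h => ⟨hP.1.1 h, h⟩⟩
    rw [h3, hP.1.2]
  rw [Finset.sum_congr rfl h2, Finset.sum_const, smul_eq_mul]
  rfl

theorem PVT_term (j X Y : ℕ) (hX : 1 ≤ X) (hXj : X ≤ j) (hY : Y ≤ X) :
    ((X : ℝ) - Y) / X ≤ ∑ a ∈ Finset.Icc 1 j, (1 / (a : ℝ)) * (ind (a ≤ X) - ind (a ≤ Y)) := by
  have hX0 : (0 : ℝ) < X := by exact_mod_cast hX
  have h1 : ∑ a ∈ Finset.Ioc Y X, (1 / (X : ℝ)) ≤ ∑ a ∈ Finset.Icc 1 j, (1 / (a : ℝ)) * (ind (a ≤ X) - ind (a ≤ Y)) := by
    have h2 : Finset.Ioc Y X ⊆ Finset.Icc 1 j := by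
      intro a ha
      rw [Finset.mem_Ioc] at ha
      rw [Finset.mem_Icc]
      omega
    calc ∑ a ∈ Finset.Ioc Y X, (1 / (X : ℝ)) ≤ ∑ a ∈ Finset.Ioc Y X, (1 / (a : ℝ)) * (ind (a ≤ X) - ind (a ≤ Y)) := by
          apply Finset.sum_le_sum
          intro a ha
          rw [Finset.mem_Ioc] at ha
          unfold ind
          rw [if_pos ha.2, if_neg (by omega), sub_zero, mul_one]
          have h3 : (0 : ℝ) < a := by
            exact_mod_cast (by omega : 0 < a)
          apply one_div_le_one_div_of_le h3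
          exact_mod_cast ha.2
      _ ≤ _ := by
          apply Finset.sum_le_sum_of_subset_of_nonneg h2
          intro a _ _
          apply mul_nonneg (by positivity)
          unfold ind
          by_cases h4 : a ≤ Y
          · rw [if_pos h4, if_pos (h4.trans hY)]
            norm_num
          · rw [if_neg h4]
            by_cases h5 : a ≤ X
            · rw [if_pos h5]
              norm_num
            · rw [if_neg h5]
              norm_num
  refine le_trans (le_of_eq ?_) h1
  rw [Finset.sum_const, Nat.card_Ioc, nsmul_eq_mul, Nat.cast_sub hY]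
  ring

theorem PVT : PVT_stmt := by
  classical
  intro k l j S A
  have hle : ∀ i, cnt l (S.erase i) A ≤ cnt l S A := by
    intro i
    rw [PVT_split l S A i]
    exact Nat.le_add_right _ _
  by_cases h : 1 ≤ cnt l S A ∧ cnt l S A ≤ j
  · have h0 : ind (1 ≤ cnt l S A ∧ cnt l S A ≤ j) = 1 := by
      unfold ind
      rw [if_pos h]
    rw [h0, mul_one]
    have hX0 : (0 : ℝ) < (cnt l S A : ℝ) := by exact_mod_cast h.1
    have h1 : (l : ℝ) = ∑ i ∈ S, ((cnt l S A : ℝ) - (cnt l (S.erase i) A : ℝ)) / (cnt l S A : ℝ) := by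
      rw [← Finset.sum_div, eq_div_iff hX0.ne']
      have h2 := PVT_double l S A
      have h3 : ∀ i ∈ S, ((cnt l S A : ℝ) - (cnt l (S.erase i) A : ℝ)) = ((((S.powersetCard l).filter A).filter fun P => i ∈ P).card : ℝ) := by
        intro i _
        have h4 := PVT_split l S A i
        have h5 : (cnt l S A : ℝ) = (cnt l (S.erase i) A : ℝ) + ((((S.powersetCard l).filter A).filter fun P => i ∈ P).card : ℝ) := by
          exact_mod_cast h4
        linarith
      rw [Finset.sum_congr rfl h3]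
      have h6 : (∑ i ∈ S, ((((S.powersetCard l).filter A).filter fun P => i ∈ P).card : ℝ)) = (cnt l S A : ℝ) * l := by
        exact_mod_cast h2
      rw [h6]
      ring
    rw [h1]
    have h7 : ∑ a ∈ Finset.Icc 1 j, (1 / (a : ℝ)) * ∑ i ∈ S, (ind (a ≤ cnt l S A) - ind (a ≤ cnt l (S.erase i) A)) =
        ∑ i ∈ S, ∑ a ∈ Finset.Icc 1 j, (1 / (a : ℝ)) * (ind (a ≤ cnt l S A) - ind (a ≤ cnt l (S.erase i) A)) := by
      rw [Finset.sum_comm]
      apply Finset.sum_congr rfl
      intro a _
      rw [Finset.mul_sum]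
    rw [h7]
    apply Finset.sum_le_sum
    intro i _
    exact PVT_term j _ _ h.1 h.2 (hle i)
  · have h0 : ind (1 ≤ cnt l S A ∧ cnt l S A ≤ j) = 0 := by
      unfold ind
      rw [if_neg h]
    rw [h0, mul_zero]
    apply Finset.sum_nonneg
    intro a _
    apply mul_nonneg (by positivity)
    apply Finset.sum_nonneg
    intro i _
    unfold ind
    by_cases h4 : a ≤ cnt l (S.erase i) A
    · rw [if_pos h4, if_pos (h4.trans (hle i))]
      norm_num
    · rw [if_neg h4]
      by_cases h5 : a ≤ cnt l S A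
      · rw [if_pos h5]
        norm_num
      · rw [if_neg h5]
        norm_num

end Pool.Agent.VVO
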